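import Pool.Agent.H954Z.HardyC

/-!
# A representing system of Cauchy kernels of zero upper density in every `H^p`, `1 < p < ∞`
-/

set_option autoImplicit false

namespace Pool.Agent.Results.MP_459ac8_an.AZeroDensity

open Pool.Agent.H954Z.HardyDefs

/-- There is a sequence `Λ` of distinct points of the unit disc with upper density zero whose Cauchy
kernels form a representing system in `H^p` for every `1 < p < ∞` (in particular in `H^2`). -/
theorem result : ∃ Λ : ℕ → ℂ, Function.Injective Λ ∧ (∀ n, ‖Λ n‖ < 1) ∧ upperDensity Λ = 0 ∧
    ∀ p : ℝ, 1 < p → IsRepresenting p Λ :=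
  Pool.Agent.H954Z.Hardy.main

end Pool.Agent.Results.MP_459ac8_an.AZeroDensity
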